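import Pool.Agent.helper27.CHS.Spec

/-!
# Project chs (MP_5628fe_nt): row VB, bounds for `V`
-/

set_option autoImplicit false

open Finset

namespace Pool.Agent.CHS

open Pool.Agent.SX

theorem VB_exp (y : ℝ) (h0 : 0 ≤ y) (h1 : y ≤ 1 / 7) : Real.exp (-(y + y ^ 2)) ≤ 1 - y := by
  have h2 : 1 + (y + y ^ 2) + (y + y ^ 2) ^ 2 / 2 ≤ Real.exp (y + y ^ 2) :=
    Real.quadratic_le_exp_of_nonneg (by positivity)
  have h3 : 0 < Real.exp (y + y ^ 2) := Real.exp_pos _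
  rw [Real.exp_neg, inv_le_iff_one_le_mul₀ h3]
  have h4 : 1 + y + 3 / 2 * y ^ 2 ≤ Real.exp (y + y ^ 2) := by
    have : 0 ≤ y ^ 3 := by positivity
    have : 0 ≤ y ^ 4 := by positivity
    nlinarith
  have h5 : 0 ≤ 1 - y := by linarith
  have h6 : (1 - y) * (1 + y + 3 / 2 * y ^ 2) ≤ (1 - y) * Real.exp (y + y ^ 2) :=
    mul_le_mul_of_nonneg_left h4 h5
  have h7 : 1 ≤ (1 - y) * (1 + y + 3 / 2 * y ^ 2) := by
    have h8 : 0 ≤ y ^ 2 := by positivity
    nlinarith [mul_nonneg h8 h0, mul_le_mul_of_nonneg_left h1 h8]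
  linarith

theorem VB_tel (n : ℕ) : ∑ p ∈ Ico 8 (8 + n), (1 / ((p : ℝ) - 1)) ^ 2 ≤ 1 / 6 - 1 / ((n : ℝ) + 6) := by
  induction n with
  | zero => norm_num
  | succ n ih =>
    rw [← Nat.add_assoc, Finset.sum_Ico_succ_top (by omega)]
    have h1 : (1 / (((8 + n : ℕ) : ℝ) - 1)) ^ 2 ≤ 1 / ((n : ℝ) + 6) - 1 / ((n : ℝ) + 7) := by
      push_cast
      have h2 : (0 : ℝ) ≤ n := Nat.cast_nonneg n
      have h3 : (8 + (n : ℝ) - 1) = (n : ℝ) + 7 := by ring
      rw [h3, div_sub_div _ _ (by positivity) (by positivity), div_pow, div_le_div_iff₀ (by positivity)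
        (by positivity)]
      nlinarith
    have h4 : ((n + 1 : ℕ) : ℝ) + 6 = (n : ℝ) + 7 := by push_cast; ring
    rw [h4]
    linarith

theorem VB_sq (E : Finset ℕ) (hE : ∀ p ∈ E, 8 ≤ p) : ∑ p ∈ E, (1 / ((p : ℝ) - 1)) ^ 2 ≤ 1 := by
  obtain ⟨n, hn⟩ : ∃ n : ℕ, ∀ p ∈ E, p < 8 + n := by
    refine ⟨E.sup id + 1, fun p hp => ?_⟩
    have := Finset.le_sup (f := id) hp
    simp only [id] at this
    omega
  have h1 : E ⊆ Ico 8 (8 + n) := fun p hp => Finset.mem_Ico.2 ⟨hE p hp, hn p hp⟩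
  have h2 := VB_tel n
  have h3 : (0 : ℝ) ≤ 1 / ((n : ℝ) + 6) := by positivity
  have h4 : ∑ p ∈ E, (1 / ((p : ℝ) - 1)) ^ 2 ≤ ∑ p ∈ Ico 8 (8 + n), (1 / ((p : ℝ) - 1)) ^ 2 :=
    Finset.sum_le_sum_of_subset_of_nonneg h1 (fun _ _ _ => sq_nonneg _)
  linarith

theorem VB_low (hPA : PA_stmt) (x y : ℝ) (hx : 2 ≤ x) : Real.exp (-sig x y - 1) ≤ V (PB x y) := by
  obtain ⟨_, _, h3, _⟩ := hPA
  obtain ⟨_, _, _, h7⟩ := h3 x y hx
  have h1 : ∀ p ∈ PB x y, Real.exp (-(1 / ((p : ℝ) - 1) + (1 / ((p : ℝ) - 1)) ^ 2)) ≤ 1 - 1 / ((p : ℝ) - 1) :=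
    fun p hp => VB_exp _ (h7 p hp).2.1.le (h7 p hp).2.2
  have h2 : Real.exp (∑ p ∈ PB x y, -(1 / ((p : ℝ) - 1) + (1 / ((p : ℝ) - 1)) ^ 2)) ≤ V (PB x y) := by
    rw [Real.exp_sum]
    exact Finset.prod_le_prod (fun _ _ => (Real.exp_pos _).le) h1
  refine le_trans (Real.exp_le_exp.2 ?_) h2
  rw [Finset.sum_neg_distrib, Finset.sum_add_distrib]
  have h4 := VB_sq (PB x y) (fun p hp => (h7 p hp).1)
  have h5 : sig x y = ∑ p ∈ PB x y, 1 / ((p : ℝ) - 1) := rfl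
  rw [← h5]
  linarith

theorem VB_up (hPA : PA_stmt) (x y : ℝ) (hx : 2 ≤ x) : V (PB x y) ≤ Real.exp (-sig x y) := by
  obtain ⟨_, _, h3, _⟩ := hPA
  obtain ⟨_, _, _, h7⟩ := h3 x y hx
  have h5 : -sig x y = ∑ p ∈ PB x y, -(1 / ((p : ℝ) - 1)) := by
    rw [Finset.sum_neg_distrib]; rfl
  rw [h5, Real.exp_sum]
  refine Finset.prod_le_prod (fun p hp => ?_) (fun p _ => ?_)
  · have := (h7 p hp).2.2
    linarith
  · have := Real.add_one_le_exp (-(1 / ((p : ℝ) - 1)))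
    linarith

theorem VB (hPA : PA_stmt) (hSG : SG_stmt) (hSL : SL_stmt) : VB_stmt := by
  refine ⟨fun x h hx hxh => ?_, fun ε hε => ?_⟩
  · have hx0 : 0 < x := by linarith
    have hh0 : 0 < h := by linarith
    refine le_trans ?_ (VB_low hPA x h (by linarith))
    have h1 := hSG x h hx hxh
    have h2 : -Real.log (h / x) - 3 / 2 ≤ -sig x h - 1 := by
      have : 2 / x ≤ 1 / 2 := by
        rw [div_le_div_iff₀ hx0 (by norm_num)]; linarith
      linarith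
    refine le_trans ?_ (Real.exp_le_exp.2 h2)
    rw [Real.exp_sub, Real.exp_neg, Real.exp_log (by positivity), inv_div]
    have h3 : Real.exp (3 / 2) ≤ 8 := by
      have h4 : Real.exp 1 < 3 := by
        have := Real.exp_one_lt_d9
        linarith
      have h5 : Real.exp (3 / 2) * Real.exp (3 / 2) = Real.exp 1 * Real.exp 1 * Real.exp 1 := by
        rw [← Real.exp_add, ← Real.exp_add, ← Real.exp_add]; norm_num
      have h6 : 0 < Real.exp 1 := Real.exp_pos _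
      have h7 : 0 < Real.exp (3 / 2) := Real.exp_pos _
      have h8 : Real.exp 1 * Real.exp 1 * Real.exp 1 ≤ 27 := by
        have h9 : Real.exp 1 * Real.exp 1 ≤ 9 := by nlinarith
        nlinarith
      nlinarith
    have h9 : x / (8 * h) = x / h / 8 := by field_simp
    rw [h9]
    exact div_le_div_of_nonneg_left (by positivity) (Real.exp_pos _) h3
  · obtain ⟨C, hC, hS⟩ := hSL
    have hl : 0 < Real.log (1 + ε) := Real.log_pos (by linarith)
    refine ⟨max 2 (C / Real.log (1 + ε)), fun h hh => ?_⟩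
    have h2 : 2 ≤ h := le_trans (le_max_left _ _) hh
    have h3 : C / Real.log (1 + ε) ≤ h := le_trans (le_max_right _ _) hh
    have h0 : 0 < h := by linarith
    have h4 : C / h ≤ Real.log (1 + ε) := by
      rw [div_le_iff₀ hl] at h3
      rw [div_le_iff₀ h0]
      linarith
    have h5 := hS h (32 / 17 * h) h2 (by linarith)
    have h6 : 32 / 17 * h / h = 32 / 17 := by field_simp
    rw [h6] at h5
    refine le_trans (VB_up hPA h (32 / 17 * h) h2) ?_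
    have h7 : -sig h (32 / 17 * h) ≤ -Real.log (32 / 17) + Real.log (1 + ε) := by linarith
    refine le_trans (Real.exp_le_exp.2 h7) ?_
    rw [Real.exp_add, Real.exp_neg, Real.exp_log (by norm_num), Real.exp_log (by linarith)]
    norm_num

end Pool.Agent.CHS
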